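import Pool.Agent.Q255.SG.TT
import Pool.Agent.Q255.SG.Sharp
import Pool.Agent.TH958.BV.Main

/-!
# The Tauberian Tate conjecture and the modulus of `L_2` on the edge

`X` is a smooth projective variety over a number field `K`, `α_{v,j}`, `j < N`, are the eigenvalues of
the geometric Frobenius at `v` on `H^2(X)` (at the bad primes: on the invariants of inertia, completed
by zeros), `b_v` is their sum and `L(z) = ∏_v ∏_j (1 - α_{v,j} q_v^{-z})⁻¹`, `Re z > 2`.  The question
is whether `A(T) = T⁻¹ ∑_{q_v ≤ T, v ∉ R} b_v log q_v / q_v` tends to `r = rank NS(X/K)` as `T → ∞`.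

The function `L(z)` has boundary values `l(t)`, different from zero, in all angles at the points `2 + it`
outside a set of Hausdorff dimension zero, and `log |l|` is locally integrable.  We prove, without any
hypothesis on the `L`-function:

* `A(T)` tends to `r` if and only if `x ∫ log |l(t)| φ(t) e^{ixt} dt → π r φ(0)` as `x → ∞` for all
smooth `φ` with compact support;
* if this is known only for the `φ` with support in a segment `|t| < λ`, for example if `L` is continued
to this segment with a pole of order `r` at `2` and no other zeros and poles, then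
`|A(T) - r| ≤ C N [K : ℚ] / λ + o(1)`, with an absolute constant `C`;
* up to `C` this is the best possible bound for Euler products with eigenvalues of the right size: for
every `λ` there are numbers `b_p`, `|b_p| = p`, such that `∏ (1 - b_p p^{-z})⁻¹` is continued to the
segment `|t| < λ` without zeros and poles, but `|T⁻¹ ∑_{p < T} b_p log p / p|` exceeds every
`m < 1 / (1 + λ)` for arbitrarily large `T`.
-/

set_option autoImplicit false

namespace Pool.Agent.Results.MP_4589ac_nt.EdgeAsymptotic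

open NumberField IsDedekindDomain Filter Topology MeasureTheory Polynomial
  Pool.Agent.TH958.BV

section Definitions
variable {K : Type} [Field K] [NumberField K]

/-- `α v` is a list of `N` numbers for every prime `v` of `K`: at almost all primes the eigenvalues
of the geometric Frobenius on `H^2(X)`, at the other primes numbers of absolute value at most `q_v`
(the eigenvalues on the invariants of inertia, completed by zeros). -/
def IsEigenvalueSystem {n : ℕ} (X : Set (MvPolynomial (Fin n) (𝓞 K))) (d N : ℕ)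
    (α : HeightOneSpectrum (𝓞 K) → Fin N → ℂ) : Prop :=
  (∀ᶠ v in cofinite, IsFrobenius X d 2 v (α v)) ∧
  ∀ v j, ‖α v j‖ ≤ (Ideal.absNorm v.asIdeal : ℝ)

/-- The `L`-function `L(z) = ∏_v ∏_j (1 - α_{v,j} q_v^{-z})⁻¹`, the Euler product over all primes. -/
noncomputable def LFunction {N : ℕ} (α : HeightOneSpectrum (𝓞 K) → Fin N → ℂ) (z : ℂ) : ℂ :=
  ∏' v : HeightOneSpectrum (𝓞 K), (∏ j, (1 - α v j * (Ideal.absNorm v.asIdeal : ℂ) ^ (-z)))⁻¹

/-- The average `T⁻¹ ∑_{q_v ≤ T, v ∉ R} b_v log q_v / q_v`, `b_v = ∑_j α_{v,j}`, of the question. -/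
noncomputable def average (R : Set (HeightOneSpectrum (𝓞 K))) {N : ℕ}
    (α : HeightOneSpectrum (𝓞 K) → Fin N → ℂ) (T : ℝ) : ℂ :=
  (T : ℂ)⁻¹ * ∑ᶠ v ∈ {v : HeightOneSpectrum (𝓞 K) | (Ideal.absNorm v.asIdeal : ℝ) ≤ T ∧ v ∉ R},
    (∑ j, α v j) * (Real.log (Ideal.absNorm v.asIdeal) : ℝ) / (Ideal.absNorm v.asIdeal : ℂ)

end Definitions

/-- The point `2 + it`. -/
noncomputable def edgePoint (t : ℝ) : ℂ := 2 + (t : ℂ) * Complex.I

/-- `l` is the boundary function of `L` on the edge `Re z = 2`: outside a set of Hausdorff dimension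
`0` its values are not zero, and they are the limits of `L` in every angle. -/
def IsBoundaryFunction (L : ℂ → ℂ) (l : ℝ → ℂ) : Prop :=
  ∃ T : Set ℝ, dimH T = 0 ∧ ∀ t : ℝ, t ∉ T → l t ≠ 0 ∧
    ∀ c : ℝ, Tendsto L (𝓝[{z : ℂ | 2 < z.re ∧ ‖z - edgePoint t‖ ≤ c * (z.re - 2)}] (edgePoint t))
      (𝓝 (l t))

/-- Smooth functions with compact support. -/
def IsTest (φ : ℝ → ℂ) : Prop := ContDiff ℝ (⊤ : ℕ∞) φ ∧ HasCompactSupport φ

/-- `∫ log |l(t)| φ(t) e^{ixt} dt`. -/
noncomputable def edgeIntegral (l φ : ℝ → ℂ) (x : ℝ) : ℂ :=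
  ∫ t : ℝ, ((Real.log ‖l t‖ : ℝ) : ℂ) * (φ t * Complex.exp (Complex.I * x * t))

/-- The asymptotic formula `x ∫ log |l(t)| φ(t) e^{ixt} dt → π r φ(0)` as `x → ∞`, for all test
functions `φ` with support in the segment `|t| < λ`. -/
def EdgeAsymptoticOn (lam : ℝ) (l : ℝ → ℂ) (r : ℂ) : Prop := ∀ φ : ℝ → ℂ, IsTest φ →
  (∀ t ∈ tsupport φ, |t| < lam) →
  Tendsto (fun x : ℝ => (x : ℂ) * edgeIntegral l φ x) atTop (𝓝 (Real.pi * r * φ 0))

/-- The asymptotic formula for all test functions. -/
def EdgeAsymptotic (l : ℝ → ℂ) (r : ℂ) : Prop := ∀ φ : ℝ → ℂ, IsTest φ →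
  Tendsto (fun x : ℝ => (x : ℂ) * edgeIntegral l φ x) atTop (𝓝 (Real.pi * r * φ 0))

/-- `L` is continued to a neighbourhood of every point `2 + it`, `|t| < λ`, and `(z - 2)^m L(z)` is
holomorphic and not zero there: no zeros and poles except for a pole of order `m` at `2`. -/
def ContinuesOnSegment (L : ℂ → ℂ) (m : ℤ) (lam : ℝ) : Prop := ∀ t : ℝ, |t| < lam →
  ∃ Φ : ℂ → ℂ, AnalyticAt ℂ Φ (edgePoint t) ∧ Φ (edgePoint t) ≠ 0 ∧
    ∀ᶠ z in 𝓝 (edgePoint t), 2 < z.re → L z * (z - 2) ^ m = Φ z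

/-- What is proved for a variety `X` over `K` and the constant `C`. -/
def Assertion (C : ℝ) {K : Type} [Field K] [NumberField K] {N : ℕ}
    (α : HeightOneSpectrum (𝓞 K) → Fin N → ℂ) : Prop :=
  (∃ l, IsBoundaryFunction (LFunction α) l) ∧
  ∀ R : Set (HeightOneSpectrum (𝓞 K)), R.Finite → ∀ l, IsBoundaryFunction (LFunction α) l →
    (∀ φ : ℝ → ℂ, IsTest φ → ∀ x : ℝ, Integrable fun t : ℝ =>
      ((Real.log ‖l t‖ : ℝ) : ℂ) * (φ t * Complex.exp (Complex.I * x * t))) ∧
    (∀ r : ℂ, Tendsto (average R α) atTop (𝓝 r) ↔ EdgeAsymptotic l r) ∧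
    (∀ (r : ℂ) (lam : ℝ), 0 < lam → EdgeAsymptoticOn lam l r → ∀ ε : ℝ, 0 < ε →
      ∀ᶠ T : ℝ in atTop, ‖average R α T - r‖ ≤ C * (N * Module.finrank ℚ K) / lam + ε) ∧
    ∀ (m : ℤ) (lam : ℝ), ContinuesOnSegment (LFunction α) m lam → EdgeAsymptoticOn lam l m

/-! ## Translation -/

section Translation

open Pool.Agent.Q255.SG

variable {K : Type} [Field K] [NumberField K]

theorem eq0_eq (t : ℝ) : Pool.Agent.Q255.SG.eq0 2 t = edgePoint t := by
  unfold Pool.Agent.Q255.SG.eq0 edgePoint
  norm_num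

theorem bf_iff {L : ℂ → ℂ} {l : ℝ → ℂ} :
    IsBoundaryFunction L l ↔ Pool.Agent.Q255.SG.AngBd 2 L l := by
  unfold IsBoundaryFunction Pool.Agent.Q255.SG.AngBd
  simp only [eq0_eq, show (2 : ℝ) / 2 + 1 = 2 by norm_num]

theorem cont_iff {L : ℂ → ℂ} {m : ℤ} {lam : ℝ} : ContinuesOnSegment L m lam ↔
    ∀ t0 : ℝ, |t0| < lam → ∃ Φ : ℂ → ℂ, AnalyticAt ℂ Φ (Pool.Agent.Q255.SG.eq0 2 t0) ∧
      Φ (Pool.Agent.Q255.SG.eq0 2 t0) ≠ 0 ∧ ∀ᶠ s in 𝓝 (Pool.Agent.Q255.SG.eq0 2 t0),
        (2 : ℝ) / 2 + 1 < s.re → L s * (s - Pool.Agent.Q255.SG.eq0 2 0) ^ m = Φ s := by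
  have e0 : edgePoint 0 = 2 := by
    unfold edgePoint
    simp
  unfold ContinuesOnSegment
  simp only [eq0_eq, e0, show (2 : ℝ) / 2 + 1 = 2 by norm_num]

theorem L_eq {N : ℕ} (α : HeightOneSpectrum (𝓞 K) → Fin N → ℂ) : LFunction α = LK α := rfl

theorem bd {n : ℕ} {X : Set (MvPolynomial (Fin n) (𝓞 K))} {d N : ℕ}
    {α : HeightOneSpectrum (𝓞 K) → Fin N → ℂ} (h : IsEigenvalueSystem X d N α) : BdK 2 α := by
  intro v j
  rw [show (2 : ℝ) / 2 = 1 by norm_num, Real.rpow_one]
  exact h.2 v j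

theorem average_eq (R : Set (HeightOneSpectrum (𝓞 K))) {N : ℕ}
    (α : HeightOneSpectrum (𝓞 K) → Fin N → ℂ) : average R α = TT.tm R 2 α := by
  funext T
  unfold average TT.tm
  congr 1
  refine finsum_congr fun v => finsum_congr fun _ => ?_
  unfold ntrK
  rw [← Finset.sum_mul]
  have h1 : (((Pool.Agent.H921R2.TatePole.nm v : ℝ) ^ (-((2 : ℝ) / 2)) : ℝ) : ℂ) =
      ((Ideal.absNorm v.asIdeal : ℂ))⁻¹ := by
    rw [show -((2 : ℝ) / 2) = -1 by norm_num, Real.rpow_neg_one]
    push_cast
    rfl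
  rw [h1, div_eq_mul_inv]
  have h2 : (Real.log (Pool.Agent.H921R2.TatePole.nm v) : ℝ) =
    Real.log (Ideal.absNorm v.asIdeal) := rfl
  rw [h2]
  ring

end Translation

/-- **The Tauberian Tate conjecture and the modulus on the edge.**  There is an absolute constant `C`
such that for every number field `K` and every smooth projective variety `X` over `K` with Frobenius
eigenvalues `α` on `H^2(X)` the following is true.  Let `N` be the number of the eigenvalues, `R` a
finite set of primes, `A(T) = T⁻¹ ∑_{q_v ≤ T, v ∉ R} b_v log q_v / q_v`.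

1. `L(z)` has a boundary function on `Re z = 2`; for every boundary function `l` the function `log |l|`
is integrable against test functions.
2. For every `r` (for example `r = rank NS(X/K)`): `A(T)` tends to `r` as `T → ∞` if and only if
`x ∫ log |l(t)| φ(t) e^{ixt} dt → π r φ(0)` as `x → ∞` for all test functions `φ`.
3. If this is true for the `φ` with support in the segment `|t| < λ`, then for every `ε > 0` and all
large `T` the distance of `A(T)` and `r` is at most `C N [K : ℚ] / λ + ε`.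
4. The assumption of 3 is satisfied, with `r = m`, if `L` is continued to the segment `|t| < λ` of the
edge, with a pole of order `m` at `2` and no other zeros and poles.
5. The order of magnitude `1/λ` in 3 is the best possible for general Euler products of this kind: for
every `λ > 0` there are numbers `b_p` with `|b_p| = p` such that `∏_p (1 - b_p p^{-z})⁻¹` is continued
to the segment `|t| < λ` without zeros and poles, but for no `m < 1 / (1 + λ)` the absolute value of
`T⁻¹ ∑_{p < T} b_p log p / p` is at most `m` for all large `T`. -/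
theorem result : (∃ C : ℝ, 0 < C ∧ ∀ (K : Type) [Field K] [NumberField K] (n : ℕ)
    (X : Set (MvPolynomial (Fin n) (𝓞 K))) (d N : ℕ) (α : HeightOneSpectrum (𝓞 K) → Fin N → ℂ),
    IsEigenvalueSystem X d N α → Assertion C α) ∧
    ∀ lam : ℝ, 0 < lam → ∃ b : ℕ → ℂ, (∀ p : ℕ, p.Prime → ‖b p‖ = p) ∧
      ContinuesOnSegment (fun z => ∏' p : Nat.Primes, (1 - b p * ((p : ℕ) : ℂ) ^ (-z))⁻¹) 0 lam ∧
      ∀ m : ℝ, m < 1 / (1 + lam) → ¬ ∀ᶠ T : ℕ in atTop,
        ‖(T : ℂ)⁻¹ * ∑ p ∈ Nat.primesBelow T, b p * (Real.log p : ℝ) / (p : ℂ)‖ ≤ m := by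
  refine ⟨?_, fun lam hlam => ?_⟩
  · obtain ⟨C, hC, hwin⟩ := Pool.Agent.Q255.SG.TT.tm_window
    refine ⟨C, hC, fun K _ _ n X d N α hα => ⟨?_, fun R hR l hl => ⟨fun φ hφ x => ?_,
      fun r => ?_, fun r lam hlam hc ε hε => ?_, fun m lam hcont φ hφ hs => ?_⟩⟩⟩
    · obtain ⟨β, hβ, hA⟩ := Pool.Agent.Q255.SG.kq (bd hα)
      have hA' : Pool.Agent.Q255.SG.Assoc α β := hA
      obtain ⟨l, hl⟩ := Pool.Agent.Q255.SG.angBd_exists hβ (L := LFunction α)
        (fun s hs => Pool.Agent.Q255.SG.LK_eq (bd hα) hA' s hs)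
      exact ⟨l, bf_iff.2 hl⟩
    · obtain ⟨β, hβ, hA⟩ := Pool.Agent.Q255.SG.kq (bd hα)
      have hA' : Pool.Agent.Q255.SG.Assoc α β := hA
      obtain ⟨T, hT, hLim⟩ := Pool.Agent.Q255.SG.Lim_of_angBd hβ
        (fun s hs => Pool.Agent.Q255.SG.LK_eq (bd hα) hA' s hs) (bf_iff.1 hl)
      exact (Pool.Agent.Q255.SG.II_tendsto _ hT hLim hφ x).1
    · rw [average_eq]
      exact Pool.Agent.Q255.SG.TT.tm_iff hR (bd hα) (bf_iff.1 hl) r
    · rw [average_eq]
      exact hwin K N 2 α (bd hα) R hR l (bf_iff.1 hl) r lam hlam hc ε hε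
    · exact Pool.Agent.Q255.SG.edge_of_loc
        (Pool.Agent.Q255.SG.loc_of_cont (bf_iff.1 hl) (cont_iff.1 hcont)) hφ hs
  · refine ⟨fun p => (p : ℂ) * Pool.Agent.Q255.SG.Sharp.tw lam p, fun p _ => ?_, fun t ht => ?_,
      fun m hm => ?_⟩
    · rw [norm_mul, Complex.norm_natCast, Pool.Agent.Q255.SG.Sharp.norm_tw, mul_one]
    · have hne : edgePoint t - 1 - (lam : ℂ) * Complex.I ≠ 1 := by
        intro h
        have := congrArg Complex.im h
        simp only [edgePoint, Complex.sub_im, Complex.add_im, Complex.im_ofReal_mul, Complex.I_im,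
          Complex.one_im, mul_one, Complex.re_ofNat, Complex.im_ofNat] at this
        have h2 := (abs_lt.1 ht).2
        linarith
      have hre : (edgePoint t - 1 - (lam : ℂ) * Complex.I).re = 1 := by
        simp only [edgePoint, Complex.sub_re, Complex.add_re, Complex.re_ofReal_mul, Complex.I_re,
          Complex.one_re, mul_zero, Complex.re_ofNat]
        norm_num
      refine ⟨fun z => riemannZeta (z - 1 - (lam : ℂ) * Complex.I), ?_, ?_, ?_⟩
      · have hd : ∀ z : ℂ, z ≠ 1 → AnalyticAt ℂ riemannZeta z := by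
          intro z hz
          have hdo : DifferentiableOn ℂ riemannZeta {1}ᶜ := fun w hw =>
            (differentiableAt_riemannZeta hw).differentiableWithinAt
          exact hdo.analyticAt (isOpen_compl_singleton.mem_nhds hz)
        exact (hd _ hne).comp (f := fun z : ℂ => z - 1 - (lam : ℂ) * Complex.I)
          ((analyticAt_id.sub analyticAt_const).sub analyticAt_const)
      · exact riemannZeta_ne_zero_of_one_le_re hre.ge
      · refine Eventually.of_forall fun z hz => ?_
        rw [zpow_zero, mul_one]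
        have hz' : 1 < (z - 1 - (lam : ℂ) * Complex.I).re := by
          simp only [Complex.sub_re, Complex.re_ofReal_mul, Complex.I_re, Complex.one_re,
            mul_zero]
          linarith
        beta_reduce
        rw [← riemannZeta_eulerProduct_tprod hz']
        refine tprod_congr fun p => ?_
        have hp0 : ((p : ℕ) : ℂ) ≠ 0 := by exact_mod_cast p.2.ne_zero
        congr 2
        have e1 : Pool.Agent.Q255.SG.Sharp.tw lam p = ((p : ℕ) : ℂ) ^ ((lam : ℂ) * Complex.I) := by
          unfold Pool.Agent.Q255.SG.Sharp.tw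
          rw [Complex.cpow_def_of_ne_zero hp0, ← Complex.natCast_log]
          congr 1
          push_cast
          ring
        rw [e1]
        have e2 : -(z - 1 - (lam : ℂ) * Complex.I) = 1 + (lam : ℂ) * Complex.I + -z := by ring
        rw [e2, Complex.cpow_add _ _ hp0, Complex.cpow_add _ _ hp0, Complex.cpow_one]
    · have h1 : m * (1 + lam) < 1 := by
        have := (lt_div_iff₀ (by linarith : (0 : ℝ) < 1 + lam)).1 hm
        linarith
      intro hev
      refine Pool.Agent.Q255.SG.Sharp.sharp hlam.le h1 ?_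
      filter_upwards [hev] with T hT
      have e1 : ∑ p ∈ Nat.primesBelow T, Pool.Agent.Q255.SG.Sharp.tw lam p * (Real.log p : ℝ) =
          ∑ p ∈ Nat.primesBelow T, (p : ℂ) * Pool.Agent.Q255.SG.Sharp.tw lam p *
            (Real.log p : ℝ) / (p : ℂ) := by
        refine Finset.sum_congr rfl fun p hp => ?_
        have hp0 : (p : ℂ) ≠ 0 := by
          exact_mod_cast (Nat.prime_of_mem_primesBelow hp).ne_zero
        field_simp
      rw [e1]
      exact hT

end Pool.Agent.Results.MP_4589ac_nt.EdgeAsymptotic
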