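import Pool.Agent.Q282.RH.EvenAll

/-!
# The normal law for the Tauberian sums of random hypersurfaces that contain linear subspaces

Let `Λ_1, ..., Λ_r` be any different linear subspaces of dimension `m` of the projective space of dimension `2 m + 1` over `ℚ`
(for `m = 1`: different lines in `ℙ³`, which may intersect), and let `d ≥ r + 3`. The forms of degree `d` with integer coefficients
that vanish on all `Λ_i` are a lattice with generators `f_1, ..., f_N`. The hypersurfaces `X_ν` given by `∑ ν_k f_k = 0`, for the
integer vectors `ν` of a box, are the random hypersurfaces of dimension `2 m` of degree `d` that contain the `Λ_i`. For a general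
one the classes of the `Λ_i` and of the linear sections are `1 + r` independent classes of algebraic cycles of codimension `m`,
and for `m = 1` the Neron-Severi group of a very general one has the rank `1 + r` (Noether-Lefschetz, Lopez). Let
`b_p(X) = #X(F_p) - (1 + p + ... + p ^ (2 m)) + p ^ m`, the trace of Frobenius on the cohomology of degree `2 m` when the reduction is
smooth (for `m = 1`: `b_p = #X(F_p) - p² - 1` on `H²`). The Tauberian Tate conjecture predicts that
`∑_{p ≤ T} b_p log p / p ^ m = (1 + r) T + o(T)`. It is proved that the deviation has the normal law: for every `ε > 0` there is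
`A` such that for `T ≥ T₀` and all boxes with sides at least `T ^ A` the distribution function of

  `(∑_{p ≤ T} b_p log p / p ^ m - (1 + r) θ(T)) / (∑_{p ≤ T} log² p) ^ (1 / 2)`

differs everywhere by at most `ε` from the normal one. So the order of the deviation from the prediction is exactly the square root
`(T log T) ^ (1 / 2)` for almost all the hypersurfaces, and it has either sign with probability one half.

Proof. The forms of the ideal of degree `d` take independent values at any four points outside the subspaces, so the first four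
moments of the number of points modulo `p` are those of a sum of independent variables; chinese remainder theorem, truncation
and the moment method over the primes with Esseen's inequality for the law.
-/

set_option autoImplicit false

namespace Pool.Agent.Results.MP_4589ac_nt.NormalLawThroughPlanes

open Finset MvPolynomial
open scoped LinearAlgebra.Projectivization

/-- The number of the points over the field with `p` elements at which the forms of the set `S` vanish, in the projective space
of dimension `n`. -/
noncomputable def points (n : ℕ) (S : Set (MvPolynomial (Fin (n + 1)) ℤ)) (p : ℕ) : ℕ :=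
  if hp : p.Prime then
    have : Fact p.Prime := ⟨hp⟩
    Nat.card {P : ℙ (ZMod p) (Fin (n + 1) → ZMod p) // ∀ F ∈ S, eval₂ (Int.castRingHom (ZMod p)) P.rep F = 0}
  else 0

/-- The number `b_p` of the hypersurface `F = 0` of dimension `2 m`. -/
noncomputable def trace (m : ℕ) (F : MvPolynomial (Fin (2 * m + 1 + 1)) ℤ) (p : ℕ) : ℝ :=
  points (2 * m + 1) {F} p - (∑ i ∈ range (2 * m + 1), (p : ℝ) ^ i - (p : ℝ) ^ m)

/-- The linear form with the coefficients `v`. -/
noncomputable def linear {n : ℕ} (v : Fin (n + 1) → ℤ) : MvPolynomial (Fin (n + 1)) ℤ := ∑ i, C (v i) * X i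

/-- For every `i` the linear equations `l i 0, ..., l i (c - 1)` are independent over `ℚ`, and the linear subspaces of codimension
`c` that they define for different `i` are different. -/
def AreSubspaces {n r c : ℕ} (l : Fin r → Fin c → Fin (n + 1) → ℤ) : Prop :=
  (∀ i, LinearIndependent ℚ (fun k s => (l i k s : ℚ))) ∧
  ∀ i j, i ≠ j → ∃ x : Fin (n + 1) → ℚ, ¬ ((∀ k, ∑ s, (l i k s : ℚ) * x s = 0) ↔ ∀ k, ∑ s, (l j k s : ℚ) * x s = 0)

/-- The forms `f k` generate the lattice of all forms of degree `d` with integer coefficients that belong, for every `i`, to the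
ideal generated by the equations of the `i`-th subspace. -/
def Generate {n r c : ℕ} (l : Fin r → Fin c → Fin (n + 1) → ℤ) (d : ℕ) {N : ℕ} (f : Fin N → MvPolynomial (Fin (n + 1)) ℤ) : Prop :=
  (∀ k, (f k).IsHomogeneous d ∧ ∀ i, f k ∈ Ideal.span (Set.range fun j => linear (l i j))) ∧
  ∀ F : MvPolynomial (Fin (n + 1)) ℤ, F.IsHomogeneous d → (∀ i, F ∈ Ideal.span (Set.range fun j => linear (l i j))) →
    ∃ a : Fin N → ℤ, F = ∑ k, C (a k) * f k

/-- The form `∑ ν_k f_k`. -/
noncomputable def member {n N : ℕ} (f : Fin N → MvPolynomial (Fin (n + 1)) ℤ) (ν : Fin N → ℤ) : MvPolynomial (Fin (n + 1)) ℤ :=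
  ∑ k, C (ν k) * f k

open Classical in
/-- The proportion of the integer vectors `ν` of the box `c_k ≤ ν_k < c_k + L_k` with the property `Q`. -/
noncomputable def proportion {N : ℕ} (c : Fin N → ℤ) (L : Fin N → ℕ) (Q : (Fin N → ℤ) → Prop) : ℝ :=
  (((Fintype.piFinset fun k => Ico (c k) (c k + L k)).filter Q).card : ℝ) / ∏ k, (L k : ℝ)

/-- The distribution function of the standard normal law. -/
noncomputable def Phi (y : ℝ) : ℝ := (ProbabilityTheory.gaussianReal 0 1).real (Set.Iic y)

/-- The Tauberian sum `∑_{p ≤ T} b_p log p / p ^ m`. -/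
noncomputable def tauberian (m : ℕ) (F : MvPolynomial (Fin (2 * m + 1 + 1)) ℤ) (T : ℕ) : ℝ :=
  ∑ p ∈ Nat.primesLE T, trace m F p * Real.log p / (p : ℝ) ^ m

/-! ### Proofs -/

lemma proportion_eq {N : ℕ} (c : Fin N → ℤ) (L : Fin N → ℕ) (Q : (Fin N → ℤ) → Prop) [DecidablePred Q] :
    proportion c L Q = (((Q282RH.tbox c L).filter Q).card : ℝ) / ∏ k, (L k : ℝ) := by
  unfold proportion Q282RH.tbox
  congr 3
  ext ν
  simp only [mem_filter]

/-- **The normal law for the Tauberian sums of random hypersurfaces that contain linear subspaces.** -/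
theorem result (ε : ℝ) (hε : 0 < ε) : ∃ A : ℕ,
    ∀ (m r d : ℕ) (l : Fin r → Fin (m + 1) → Fin (2 * m + 1 + 1) → ℤ), AreSubspaces l → r + 3 ≤ d →
      ∀ (N : ℕ) (f : Fin N → MvPolynomial (Fin (2 * m + 1 + 1)) ℤ), Generate l d f →
      ∃ T₀ : ℕ, ∀ T : ℕ, T₀ ≤ T → ∀ (c : Fin N → ℤ) (L : Fin N → ℕ), (∀ k, T ^ A ≤ L k) → ∀ y : ℝ,
        |proportion c L (fun ν => tauberian m (member f ν) T ≤
          (1 + r) * Chebyshev.theta T + y * Real.sqrt (∑ p ∈ Nat.primesLE T, (Real.log p) ^ 2)) - Phi y| ≤ ε := by
  classical
  obtain ⟨A, hA⟩ := Q282RH.even_law ε hε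
  refine ⟨A, ?_⟩
  intro m r d l hl hd N f hf
  obtain ⟨T₀, hT₀⟩ := hA m r d l hl.1 hl.2 hd (Fin N) f hf
  refine ⟨T₀, fun T hT c L hL y => ?_⟩
  have h1 := hT₀ T hT c L hL y
  rw [proportion_eq]
  exact h1

end Pool.Agent.Results.MP_4589ac_nt.NormalLawThroughPlanes
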