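import Pool.Agent.Q5.WL.Taub
import Pool.Agent.Q5.WL.Cyc

/-!
# The Tauberian Tate conjecture: from thin families of number fields to all

`X` is a smooth projective variety of dimension `d` over a number field `K`, `0 ≤ m ≤ d`, and `V` is the
space `A^m(X) ⊗ ℚ` of the classes of the algebraic cycles of codimension `m` defined over the algebraic
closure, with the action `ρ` of the absolute Galois group of `K`; for `m = 1` it is `NS(X) ⊗ ℚ`, and the
theorem holds for every finite dimensional representation `V`.  For every finite extension `F` of `K` the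
rank of the group of the classes defined over `F` is the dimension of the space of the invariants of the
absolute Galois group of `F`.  The trace of the geometric Frobenius at a prime `v` of `F` on `H^{2m}(X)`
is `b_v`.
-/

set_option autoImplicit false

namespace Pool.Agent.Results.MP_4589ac_nt.WideFamilies

open NumberField IsDedekindDomain Filter Topology Polynomial
open Pool.Agent.W353.EF (IsFrobenius)

/-- The dimension of the space of the vectors of `V` fixed by the absolute Galois group of `F`, that is,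
by all automorphisms of the algebraic closure of `K` that are trivial on the image of `F`. -/
noncomputable def rank {K : Type} [Field K] [NumberField K] {V : Type} [AddCommGroup V] [Module ℚ V]
    (ρ : Representation ℚ Gal(AlgebraicClosure K/K) V) (F : Type) [Field F] [NumberField F]
    [Algebra K F] : ℕ :=
  Module.finrank ℚ (Pool.Agent.Q5.VL.fixV ρ (IsAlgClosed.lift : F →ₐ[K] AlgebraicClosure K))

/-- `T⁻¹ ∑ b_v log q_v / q_v^m`, the sum over the primes `v` of `F` outside `S` with `q_v ≤ T`. -/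
noncomputable def average {F : Type} [Field F] [NumberField F] (m : ℕ)
    (S : Finset (HeightOneSpectrum (𝓞 F))) (b : HeightOneSpectrum (𝓞 F) → ℂ) (T : ℝ) : ℂ :=
  (T : ℂ)⁻¹ * ∑ᶠ (v : HeightOneSpectrum (𝓞 F)) (_ : v ∉ S ∧ (Ideal.absNorm v.asIdeal : ℝ) ≤ T),
    b v * (Real.log (Ideal.absNorm v.asIdeal) : ℂ) / (Ideal.absNorm v.asIdeal : ℂ) ^ m

section
variable {K : Type} [Field K] [NumberField K] {n : ℕ} (X : Set (MvPolynomial (Fin n) (𝓞 K)))
  (d m N : ℕ) {V : Type} [AddCommGroup V] [Module ℚ V]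
  (ρ : Representation ℚ Gal(AlgebraicClosure K/K) V) (F : Type) [Field F] [NumberField F]
  [Algebra K F]

/-- The Tauberian form of Tate's conjecture for `X_F`: if `b_v = ∑ α_j` for the primes `v` of `F` outside a
finite set `S`, where `α_1, …, α_N` are the eigenvalues of the geometric Frobenius at `v` on `H^{2m}(X)`,
then `T⁻¹ ∑_{v ∉ S, q_v ≤ T} b_v log q_v / q_v^m` tends to the rank over `F` as `T → ∞`. -/
def Tauber : Prop :=
  ∀ (S : Finset (HeightOneSpectrum (𝓞 F))) (b : HeightOneSpectrum (𝓞 F) → ℂ),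
    (∀ v ∉ S, ∃ α : Fin N → ℂ, IsFrobenius X d (2 * m) v α ∧ b v = ∑ j, α j) →
    Tendsto (average m S b) atTop (𝓝 (rank ρ F : ℂ))

end

/-- A family of finite extensions of `K` inside the algebraic closure is wide if it is closed under
passing to larger finite extensions, and every automorphism of the algebraic closure over `K` fixes all
elements of some member of the family. -/
def Wide (K : Type) [Field K] (𝓕 : Set (IntermediateField K (AlgebraicClosure K))) : Prop :=
  (∀ F ∈ 𝓕, FiniteDimensional K F) ∧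
  (∀ F ∈ 𝓕, ∀ F' : IntermediateField K (AlgebraicClosure K), FiniteDimensional K F' → F ≤ F' →
    F' ∈ 𝓕) ∧
  ∀ σ : AlgebraicClosure K ≃ₐ[K] AlgebraicClosure K, ∃ F ∈ 𝓕, ∀ x ∈ F, σ x = x

/-- `F` is generated over `K` by finitely many `p`-th roots of positive integers all of whose prime
factors belong to `T`, and `p ^ k` divides the degree of `F/K`. -/
def TestField (T : Set ℕ) (p k : ℕ) (K F : Type) [Field K] [Field F] [Algebra K F] : Prop :=
  (∃ S : Set F, S.Finite ∧
    (∀ x ∈ S, ∃ c : ℕ, c ≠ 0 ∧ (∀ l : ℕ, l.Prime → l ∣ c → l ∈ T) ∧ x ^ p = (c : F)) ∧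
    IntermediateField.adjoin K S = ⊤) ∧
  p ^ k ∣ Module.finrank K F

/-- The law for the cyclic subgroups of the Galois group of a finite Galois extension `L/K`. -/
def CyclicLaw : Prop :=
  ∀ (K : Type) [Field K] [NumberField K] (n : ℕ) (X : Set (MvPolynomial (Fin n) (𝓞 K)))
    (d m N : ℕ) (V : Type) [AddCommGroup V] [Module ℚ V] [FiniteDimensional ℚ V]
    (ρ : Representation ℚ Gal(AlgebraicClosure K/K) V), m ≤ d →
    ∀ L : IntermediateField K (AlgebraicClosure K), FiniteDimensional K L → Normal K L →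
      (∀ (g : L ≃ₐ[K] L) [NumberField (IntermediateField.fixedField (Subgroup.zpowers g))],
        Tauber X d m N ρ (IntermediateField.fixedField (Subgroup.zpowers g))) →
      Tauber X d m N ρ K

/-- The law for wide families. -/
def WideLaw : Prop :=
  ∀ (K : Type) [Field K] [NumberField K] (n : ℕ) (X : Set (MvPolynomial (Fin n) (𝓞 K)))
    (d m N : ℕ) (V : Type) [AddCommGroup V] [Module ℚ V] [FiniteDimensional ℚ V]
    (ρ : Representation ℚ Gal(AlgebraicClosure K/K) V), m ≤ d →
    ∀ 𝓕 : Set (IntermediateField K (AlgebraicClosure K)), Wide K 𝓕 →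
      (∀ F ∈ 𝓕, ∀ [NumberField F], Tauber X d m N ρ F) → Tauber X d m N ρ K

/-- The law for the test fields of `p`, `k` and `T`. -/
def TestLaw : Prop :=
  ∀ (K : Type) [Field K] [NumberField K] (n : ℕ) (X : Set (MvPolynomial (Fin n) (𝓞 K)))
    (d m N : ℕ) (V : Type) [AddCommGroup V] [Module ℚ V] [FiniteDimensional ℚ V]
    (ρ : Representation ℚ Gal(AlgebraicClosure K/K) V), m ≤ d →
    ∀ (p k : ℕ) (T : Set ℕ), p.Prime → (∀ l ∈ T, l.Prime) → T.Infinite →
      (∀ (F : Type) [Field F] [NumberField F] [Algebra K F], TestField T p k K F →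
        Tauber X d m N ρ F) → Tauber X d m N ρ K

/-- The law for the degrees. -/
def DegreeLaw : Prop :=
  ∀ (K : Type) [Field K] [NumberField K] (n : ℕ) (X : Set (MvPolynomial (Fin n) (𝓞 K)))
    (d m N : ℕ) (V : Type) [AddCommGroup V] [Module ℚ V] [FiniteDimensional ℚ V]
    (ρ : Representation ℚ Gal(AlgebraicClosure K/K) V), m ≤ d →
    ∀ M : ℕ, 0 < M →
      (∀ (F : Type) [Field F] [NumberField F] [Algebra K F], M ∣ Module.finrank K F →
        Tauber X d m N ρ F) →
      ∀ (F : Type) [Field F] [NumberField F] [Algebra K F], Tauber X d m N ρ F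

/-- Wide families. -/
def WideExamples : Prop :=
  ∀ (K : Type) [Field K] [NumberField K],
    (∀ 𝓕 𝓖 : Set (IntermediateField K (AlgebraicClosure K)), Wide K 𝓕 → Wide K 𝓖 →
      Wide K (𝓕 ∩ 𝓖)) ∧
    ∀ M : ℕ, 0 < M → Wide K {F | FiniteDimensional K F ∧ M ∣ Module.finrank K F}

section
variable {K : Type} [Field K] [NumberField K] {n : ℕ} {X : Set (MvPolynomial (Fin n) (𝓞 K))}
  {d m N : ℕ} {V : Type} [AddCommGroup V] [Module ℚ V]
  {ρ : Representation ℚ Gal(AlgebraicClosure K/K) V} {F : Type} [Field F] [NumberField F]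
  [Algebra K F]

theorem average_eq (S : Finset (HeightOneSpectrum (𝓞 F))) (b : HeightOneSpectrum (𝓞 F) → ℂ)
    (T : ℝ) : average m S b T = (T : ℂ)⁻¹ * ∑' v, Pool.Agent.Q5.WL.tm
      (Pool.Agent.Q5.WL.cut S b) (Pool.Agent.Q5.WL.wt m T) v := by
  classical
  have h1 : ∀ v : HeightOneSpectrum (𝓞 F),
      (∑ᶠ (_ : v ∉ S ∧ (Ideal.absNorm v.asIdeal : ℝ) ≤ T),
        b v * (Real.log (Ideal.absNorm v.asIdeal) : ℂ) / (Ideal.absNorm v.asIdeal : ℂ) ^ m) =
      Pool.Agent.Q5.WL.tm (Pool.Agent.Q5.WL.cut S b) (Pool.Agent.Q5.WL.wt m T) v := by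
    intro v
    unfold Pool.Agent.Q5.WL.tm Pool.Agent.Q5.WL.cut Pool.Agent.Q5.WL.wt
    rw [finsum_eq_if]
    by_cases hv : v ∈ S
    · rw [if_neg (fun h => h.1 hv), if_pos hv, zero_mul]
    · by_cases hT : (Ideal.absNorm v.asIdeal : ℝ) ≤ T
      · rw [if_pos ⟨hv, hT⟩, if_neg hv, if_pos hT, mul_div_assoc]
      · rw [if_neg (fun h => hT h.2), if_neg hv, if_neg hT, mul_zero]
  unfold average
  rw [finsum_congr h1]
  have h2 : (Function.support (Pool.Agent.Q5.WL.tm (Pool.Agent.Q5.WL.cut S b)
      (Pool.Agent.Q5.WL.wt m T))).Finite := by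
    refine (Pool.Agent.Q5.WL.finite_norm_le F T).subset fun v hv => ?_
    by_contra hv'
    have hv'' : ¬ ((Ideal.absNorm v.asIdeal : ℝ) ≤ T) := hv'
    apply hv
    unfold Pool.Agent.Q5.WL.tm Pool.Agent.Q5.WL.wt
    rw [if_neg hv'', mul_zero]
  rw [tsum_eq_finsum h2]

theorem tauber_iff : Tauber X d m N ρ F ↔ ∀ (S : Finset (HeightOneSpectrum (𝓞 F)))
    (b : HeightOneSpectrum (𝓞 F) → ℂ), Pool.Agent.Q5.WL.IsTr X d (2 * m) N S b →
      Tendsto (fun T : ℝ => (T : ℂ)⁻¹ * ∑' v, Pool.Agent.Q5.WL.tm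
        (Pool.Agent.Q5.WL.cut S b) (Pool.Agent.Q5.WL.wt m T) v) atTop
        (𝓝 (Pool.Agent.Q5.VL.rk ρ F : ℂ)) := by
  have key : ∀ (S : Finset (HeightOneSpectrum (𝓞 F))) (b : HeightOneSpectrum (𝓞 F) → ℂ),
      average m S b = fun T : ℝ => (T : ℂ)⁻¹ * ∑' v, Pool.Agent.Q5.WL.tm
        (Pool.Agent.Q5.WL.cut S b) (Pool.Agent.Q5.WL.wt m T) v := fun S b =>
    funext fun T => average_eq S b T
  unfold Tauber
  simp only [key]
  exact Iff.rfl

/-- the property of the fields -/
def QT (X : Set (MvPolynomial (Fin n) (𝓞 K))) (d m N : ℕ)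
    (ρ : Representation ℚ Gal(AlgebraicClosure K/K) V) (F : Type) [Field F] [NumberField F]
    [Algebra K F] (t : ℤ) : Prop :=
  t ≠ 0 → ∀ (S : Finset (HeightOneSpectrum (𝓞 F))) (b : HeightOneSpectrum (𝓞 F) → ℂ),
    Pool.Agent.Q5.WL.IsTr X d (2 * m) N S b →
      Tendsto (fun T : ℝ => (T : ℂ)⁻¹ * ∑' v, Pool.Agent.Q5.WL.tm
        (Pool.Agent.Q5.WL.cut S b) (Pool.Agent.Q5.WL.wt m T) v) atTop
        (𝓝 (Pool.Agent.Q5.VL.rk ρ F : ℂ))

theorem isLaw_QT [FiniteDimensional ℚ V] (h : m ≤ d) : Pool.Agent.Q5.VL.IsLaw (QT X d m N ρ) :=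
  Pool.Agent.Q5.WL.law_taub (by omega) m (fun _ _ => inferInstance)

end

/-- **The Tauberian form of Tate's conjecture can be tested on thin families of number fields.**  Let
`K` be a number field, `X` a smooth projective variety over `K` of dimension `d`, `0 ≤ m ≤ d`, and
`V = A^m(X) ⊗ ℚ`, or any finite dimensional rational representation of the absolute Galois group of `K`.
The conjecture `Tauber` over `F` says that `T⁻¹ ∑_{q_v ≤ T} b_v log q_v / q_v^m` tends to the rank of the
group of the classes defined over `F`; for `m = 1` this is the conjecture for `NS(X/F)`.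
1. Let `L/K` be a finite Galois extension.  If `Tauber` holds for the fields `E` between `K` and `L` with
`L/E` cyclic, it holds for `K`.
2. Let `𝓕` be a wide family of finite extensions of `K`.  If `Tauber` holds for all `F` in `𝓕`, it holds
for `K`.
3. The intersection of two wide families is wide, and the extensions of degree divisible by `M` form a wide
family.
4. Let `p` be a prime, `k` a number and `T` an infinite set of primes.  If `Tauber` holds for all `F/K` of
degree divisible by `p^k` generated by finitely many `p`-th roots of positive integers all of whose prime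
factors belong to `T`, it holds for `K`.
5. Let `M > 0`.  If `Tauber` holds for all finite extensions `F/K` with `M ∣ [F:K]`, it holds for all
finite extensions of `K`. -/
theorem result : CyclicLaw ∧ WideLaw ∧ WideExamples ∧ TestLaw ∧ DegreeLaw := by
  refine ⟨?_, ?_, fun K _ _ => ⟨fun 𝓕 𝓖 h1 h2 => Pool.Agent.Q5.HR.Wide.inter h1 h2, fun M hM =>
    Pool.Agent.Q5.HR.wide_deg hM⟩, ?_, ?_⟩
  · intro K _ _ n X d m N V _ _ _ ρ hmd L hfd hnor h
    rw [tauber_iff]
    refine Pool.Agent.Q5.WL.cyclic_law L (isLaw_QT (X := X) (N := N) (ρ := ρ) hmd) 1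
      (fun g _ _ => tauber_iff.1 (h g)) ?_
    rw [mul_one]
    exact_mod_cast (Nat.card_pos (α := L ≃ₐ[K] L)).ne'
  · intro K _ _ n X d m N V _ _ _ ρ hmd 𝓕 hF h
    obtain ⟨t, ht, hw⟩ := Pool.Agent.Q5.VL.wide_law (K := K) hF
    rw [tauber_iff]
    refine hw _ (isLaw_QT (X := X) (N := N) (ρ := ρ) hmd) 1
      (fun F hF' _ _ => tauber_iff.1 (h F hF')) ?_
    rw [mul_one]
    exact_mod_cast ht.ne'
  · intro K _ _ n X d m N V _ _ _ ρ hmd p k T hp hT hinf h
    have hpf : Fact p.Prime := ⟨hp⟩
    rw [tauber_iff]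
    refine Pool.Agent.Q5.VL.gen_radical_law' (isLaw_QT (X := X) (N := N) (ρ := ρ) hmd) p hT hinf k
      (fun F _ _ _ hr hd _ => tauber_iff.1 (h F ⟨hr, hd⟩)) ?_
    exact_mod_cast pow_ne_zero k hp.ne_zero
  · intro K _ _ n X d m N V _ _ _ ρ hmd M hM h F _ _ _
    rw [tauber_iff]
    refine Pool.Agent.Q5.VL.gen_power_law' (isLaw_QT (X := X) (N := N) (ρ := ρ) hmd) (M := M)
      (fun F _ _ _ hF _ => tauber_iff.1 (h F hF)) F ?_
    exact_mod_cast (Nat.div_pos (Nat.le_of_dvd hM (Nat.gcd_dvd_left _ _))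
      (Nat.gcd_pos_of_pos_left _ hM)).ne'

end Pool.Agent.Results.MP_4589ac_nt.WideFamilies
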